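import Mathlib

/-!
# Project BS (helper613): planes through `x` that bisect the surface of a convex body in 3-space

Statements of the parts (MP_be71bd_gt, frozen statement S13847, positive answer).

Notation of the proof: `g = gauge K`, `K` compact convex, `0` in its interior; the boundary of `K` is
`{g = 1}`. At a point `y` where `g` has gradient `p`, the tangent plane is `{z : <p, z> = 1}`, and the
surface measure of the boundary in a thin cone around `y` is `c |p|` times the volume of `K` in the cone.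
-/

set_option autoImplicit false

open MeasureTheory Set

namespace Pool.Agent.N613.BS

/-- The Euclidean space of dimension three. -/
abbrev E := EuclideanSpace ℝ (Fin 3)

/-- Two-dimensional Hausdorff measure. -/
noncomputable def H2 : Measure E := Measure.hausdorffMeasure 2

/-- `A` is a cone with apex `0` (without conditions at the apex). -/
def IsCone (A : Set E) : Prop := ∀ s : ℝ, 0 < s → ∀ z ∈ A, s • z ∈ A

/-- The open cone over the ball with centre `y` and radius `r`. -/
def C (y : E) (r : ℝ) : Set E := {z | ∃ s : ℝ, 0 < s ∧ ∃ a ∈ Metric.ball y r, z = s • a}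

/-- A convex body with `0` in its interior. -/
structure Body (K : Set E) : Prop where
  conv : Convex ℝ K
  comp : IsCompact K
  zero : (0 : E) ∈ interior K

/-- `H2` of the boundary is finite. -/
def S_FIN : Prop := ∀ K : Set E, Body K → H2 (frontier K) < ⊤

/-- (HEM1) averaging the hemispheres over a Gaussian density: for every `x` the integral of
`t exp(-t^2)`, `t = <u, x>`, vanishes. -/
def S_HEM1 : Prop := ∀ ν : Measure E, IsFiniteMeasure ν → ν (Metric.sphere (0 : E) 1)ᶜ = 0 →
  (∀ v : E, v ≠ 0 → ν {u | 0 < inner ℝ u v} = ν {u | inner ℝ u v < 0}) →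
  ∀ x : E, ∫ u, inner ℝ u x * Real.exp (-(inner ℝ u x) ^ 2) ∂ν = 0

/-- (HEM2) a finite measure on the sphere with these vanishing integrals is symmetric. -/
def S_HEM2 : Prop := ∀ ν : Measure E, IsFiniteMeasure ν → ν (Metric.sphere (0 : E) 1)ᶜ = 0 →
  (∀ x : E, ∫ u, inner ℝ u x * Real.exp (-(inner ℝ u x) ^ 2) ∂ν = 0) →
  ν.map (fun u => -u) = ν

/-- (CON) if every plane through `0` bisects the surface of `K`, the surfaces of `K` and `-K` have the
same measure in every measurable cone. -/
def S_CON : Prop := ∀ K : Set E, Body K →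
  (∀ v : E, v ≠ 0 →
    H2 {y | y ∈ frontier K ∧ 0 < inner ℝ y v} = H2 {y | y ∈ frontier K ∧ inner ℝ y v < 0}) →
  ∀ A : Set E, MeasurableSet A → IsCone A → H2 (frontier K ∩ A) = H2 (frontier (-K) ∩ A)

/-- (PL) areas of planar pieces and volumes of the cones over them. -/
def S_PL (c : ℝ) : Prop := ∀ p : E, p ≠ 0 → ∀ A : Set E, MeasurableSet A → IsCone A →
  H2 (A ∩ {z | inner ℝ p z = 1}) =
    ENNReal.ofReal (c * ‖p‖) * volume (A ∩ {z | 0 < inner ℝ p z ∧ inner ℝ p z ≤ 1})

/-- (PLX) there is such a constant. -/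
def S_PLX : Prop := ∃ c : ℝ, 0 < c ∧ S_PL c

/-- (LIP) a convex function which is differentiable at `y` differs from its linear part by a function
with small Lipschitz constant near `y`. -/
def S_LIP : Prop := ∀ K : Set E, Body K → ∀ y p : E, y ≠ 0 → HasGradientAt (gauge K) p y →
  ∀ ε : ℝ, 0 < ε → ∃ r : ℝ, 0 < r ∧ ∀ z ∈ Metric.ball y r, ∀ w ∈ Metric.ball y r,
    |(gauge K z - inner ℝ p z) - (gauge K w - inner ℝ p w)| ≤ ε * ‖z - w‖

/-- (DEN) density of the surface measure in thin cones. -/
def S_DEN (c : ℝ) : Prop := ∀ K : Set E, Body K → ∀ y p : E, y ≠ 0 →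
  HasGradientAt (gauge K) p y → ∀ ε : ℝ, 0 < ε → ∃ r₀ : ℝ, 0 < r₀ ∧ ∀ r : ℝ, 0 < r → r < r₀ →
    (1 - ε) * (c * ‖p‖ * (volume (K ∩ C y r)).toReal) ≤ (H2 (frontier K ∩ C y r)).toReal ∧
    (H2 (frontier K ∩ C y r)).toReal ≤ (1 + ε) * (c * ‖p‖ * (volume (K ∩ C y r)).toReal)

/-- (RAT) ratio of the volumes of two bodies in thin cones. -/
def S_RAT : Prop := ∀ K M : Set E, Body K → Body M → ∀ y : E, y ≠ 0 →
  ∀ ε : ℝ, 0 < ε → ∃ r₀ : ℝ, 0 < r₀ ∧ ∀ r : ℝ, 0 < r → r < r₀ →
    gauge K y ^ 3 * (volume (K ∩ C y r)).toReal ≤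
      (1 + ε) * (gauge M y ^ 3 * (volume (M ∩ C y r)).toReal)

/-- (EQ) equal surface measures of cones give a relation between the gradients. -/
def S_EQ : Prop := ∀ K M : Set E, Body K → Body M →
  (∀ A : Set E, MeasurableSet A → IsCone A → H2 (frontier K ∩ A) = H2 (frontier M ∩ A)) →
  ∀ y p q : E, y ≠ 0 → HasGradientAt (gauge K) p y → HasGradientAt (gauge M) q y →
    ‖p‖ * gauge M y ^ 3 = ‖q‖ * gauge K y ^ 3

/-- (CVX) the touching argument: this relation of the gradients forces `K = M`. -/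
def S_CVX : Prop := ∀ K M : Set E, Body K → Body M →
  (∀ y p q : E, y ≠ 0 → HasGradientAt (gauge K) p y → HasGradientAt (gauge M) q y →
    ‖p‖ * gauge M y ^ 3 = ‖q‖ * gauge K y ^ 3) →
  K = M

end Pool.Agent.N613.BS
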